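import Pool.Agent.Q7.CJ.Stm3

/-!
# Project CJ (helper7), job SHA: the Tate-Shafarevich group has no element of order `p`
-/

set_option autoImplicit false

open Polynomial NumberField IsDedekindDomain Pool.Agent.Q7.CJ

namespace Pool.Agent.Q53.CJ.SHA

section

variable {p : ℕ} [Fact p.Prime] [Fact (p ≠ 2)]

omit [Fact p.Prime] [Fact (p ≠ 2)] in
theorem bc_mk {L M : Type} [Field L] [Field M] (φ : L →+* M) (D : L) (D' : M) (h : φ D = D') (g : L[X][X]) :
    bc p φ D D' h (AdjoinRoot.mk (ff p D) g) = AdjoinRoot.mk (ff p D') (g.map (mapRingHom φ)) := by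
  have h3 : (bc p φ D D' h).comp (AdjoinRoot.mk (ff p D)) =
      (AdjoinRoot.mk (ff p D')).comp (mapRingHom (mapRingHom φ)) := by
    refine Polynomial.ringHom_ext (fun a => ?_) ?_
    · simp only [RingHom.comp_apply, AdjoinRoot.mk_C, coe_mapRingHom, map_C]
      exact bc_of p φ D D' h a
    · simp only [RingHom.comp_apply, AdjoinRoot.mk_X, coe_mapRingHom, map_X]
      exact bc_xx p φ D D' h
  exact RingHom.congr_fun h3 g

omit [Fact p.Prime] [Fact (p ≠ 2)] in
/-- an element of the coordinate ring has finitely many coefficients -/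
theorem exists_coefs {L : Type} [Field L] (D : L) (b : BR p D) : ∃ S : Finset L, ∀ (φ : L →+* L) (h : φ D = D),
    (∀ x ∈ S, φ x = x) → bc p φ D D h b = b := by
  classical
  obtain ⟨g, rfl⟩ := AdjoinRoot.mk_surjective b
  refine ⟨g.support.biUnion fun i => (g.coeff i).coeffs, fun φ h hS => ?_⟩
  rw [bc_mk]
  congr 1
  ext i j
  rw [coeff_map, coe_mapRingHom, coeff_map]
  by_cases h0 : (g.coeff i).coeff j = 0
  · rw [h0, map_zero]
  · refine hS _ ?_
    rw [Finset.mem_biUnion]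
    refine ⟨i, ?_, coeff_mem_coeffs h0⟩
    rw [mem_support_iff]
    intro h1
    rw [h1, coeff_zero] at h0
    exact h0 rfl

instance {L : Type} [Field L] (D : L) : IsNoetherianRing (BR p D) :=
  isNoetherianRing_of_surjective _ _ (AdjoinRoot.mk (ff p D)) AdjoinRoot.mk_surjective

omit [Fact p.Prime] [Fact (p ≠ 2)] in
/-- a finitely generated ideal has finitely many coefficients -/
theorem map_fix {L : Type} [Field L] (D : L) (s : Finset (BR p D)) (S : BR p D → Finset L)
    (hS : ∀ (b : BR p D) (φ : L →+* L) (h : φ D = D), (∀ x ∈ S b, φ x = x) → bc p φ D D h b = b)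
    (φ : L →+* L) (h : φ D = D) (hφ : ∀ b ∈ s, ∀ x ∈ S b, φ x = x) :
    (Ideal.span (s : Set (BR p D))).map (bc p φ D D h) = Ideal.span (s : Set (BR p D)) := by
  rw [Ideal.map_span]
  congr 1
  ext b
  rw [Set.mem_image]
  have h3 : ∀ c ∈ s, bc p φ D D h c = c := fun c hc => hS c φ h (hφ c hc)
  constructor
  · rintro ⟨c, hc, rfl⟩
    rw [h3 c hc]
    exact hc
  · intro hb
    exact ⟨b, hb, h3 b hb⟩

theorem act_locConst (hDIC : S_DIC) (hFUN : S_FUN) {F : Type} [Field F] [CharZero F] (D : F) (hD : D ≠ 0)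
    (Q : Jp p D (AlgebraicClosure F)) :
    IsLocallyConstant (fun σ : GalF F => act p D (σ : AlgebraicClosure F →ₐ[F] AlgebraicClosure F) Q) := by
  classical
  obtain ⟨d1, d2, d3, d4, d5, d6, d7, d8⟩ := hDIC p F D hD (AlgebraicClosure F)
  obtain ⟨I, hI⟩ := d1 Q
  obtain ⟨s, hs⟩ := (isNoetherianRing_iff_ideal_fg _).1 (inferInstance : IsNoetherianRing (BR p (algebraMap F (AlgebraicClosure F) D))) I
  choose S hS using fun b : BR p (algebraMap F (AlgebraicClosure F) D) => exists_coefs (p := p) _ b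
  set T : Finset (AlgebraicClosure F) := s.biUnion S with hT
  set E : IntermediateField F (AlgebraicClosure F) := IntermediateField.adjoin F (T : Set (AlgebraicClosure F)) with hE
  have hfin : FiniteDimensional F E :=
    IntermediateField.finiteDimensional_adjoin fun x _ => Algebra.IsIntegral.isIntegral x
  have hfix : ∀ u ∈ E.fixingSubgroup, act p D ((u : GalF F) : AlgebraicClosure F →ₐ[F] AlgebraicClosure F) Q = Q := by
    intro u hu
    rw [IntermediateField.mem_fixingSubgroup_iff] at hu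
    have h1 := d8 (AlgebraicClosure F) (u : AlgebraicClosure F →ₐ[F] AlgebraicClosure F) Q I hI
    have h2 : ∀ J : Ideal (BR p (algebraMap F (AlgebraicClosure F) D)), Submodule.span (BR p (algebraMap F (AlgebraicClosure F) D)) (s : Set _) = J →
        J.map (bc p ((u : AlgebraicClosure F →ₐ[F] AlgebraicClosure F) : AlgebraicClosure F →+* AlgebraicClosure F)
        (algebraMap F (AlgebraicClosure F) D) (algebraMap F (AlgebraicClosure F) D)
        (AlgHom.commutes (u : AlgebraicClosure F →ₐ[F] AlgebraicClosure F) D)) = J := by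
      rintro _ rfl
      exact map_fix _ s S hS (((u : AlgebraicClosure F →ₐ[F] AlgebraicClosure F) : AlgebraicClosure F →+* AlgebraicClosure F))
        (AlgHom.commutes (u : AlgebraicClosure F →ₐ[F] AlgebraicClosure F) D) (fun b hb x hx => by
          refine hu x (IntermediateField.subset_adjoin F _ ?_)
          rw [hT, Finset.mem_coe, Finset.mem_biUnion]
          exact ⟨b, hb, hx⟩)
    have h1 : IsCls p D (act p D (u : AlgebraicClosure F →ₐ[F] AlgebraicClosure F) Q) I :=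
      (congrArg (fun J => IsCls p D (act p D (u : AlgebraicClosure F →ₐ[F] AlgebraicClosure F) Q) J) (h2 I hs)).mp h1
    exact ((d4 _ _ I I h1 hI).1).2 ⟨1, 1, one_ne_zero, one_ne_zero, rfl⟩
  rw [IsLocallyConstant.iff_exists_open]
  intro σ
  refine ⟨(fun u => σ * u) '' (E.fixingSubgroup : Set (GalF F)), ?_, ⟨1, E.fixingSubgroup.one_mem, mul_one σ⟩, ?_⟩
  · exact (isOpenMap_mul_left σ) _ (IntermediateField.fixingSubgroup_isOpen E)
  · rintro τ ⟨u, hu, rfl⟩
    obtain ⟨-, g2, -, -⟩ := hFUN p F D hD (AlgebraicClosure F) (AlgebraicClosure F) (AlgebraicClosure F)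
      (u : AlgebraicClosure F →ₐ[F] AlgebraicClosure F) (σ : AlgebraicClosure F →ₐ[F] AlgebraicClosure F)
    have h1 : ((σ * u : GalF F) : AlgebraicClosure F →ₐ[F] AlgebraicClosure F) =
        (σ : AlgebraicClosure F →ₐ[F] AlgebraicClosure F).comp (u : AlgebraicClosure F →ₐ[F] AlgebraicClosure F) := rfl
    show act p D ((σ * u : GalF F) : AlgebraicClosure F →ₐ[F] AlgebraicClosure F) Q = _
    rw [h1, g2, hfix u hu]

end

section main

variable {p : ℕ} [Fact p.Prime] [Fact (p ≠ 2)] {F : Type} [Field F]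

theorem fun_comp [CharZero F] (hFUN : S_FUN) {D : F} (hD : D ≠ 0) {L M N : Type} [Field L] [Algebra F L] [Field M] [Algebra F M]
    [Field N] [Algebra F N] (φ : L →ₐ[F] M) (ψ : M →ₐ[F] N) (P : Jp p D L) :
    act p D (ψ.comp φ) P = act p D ψ (act p D φ P) := (hFUN p F D hD L M N φ ψ).2.1 P

theorem fun_T [CharZero F] (hFUN : S_FUN) {D : F} (hD : D ≠ 0) {L M : Type} [Field L] [Algebra F L] [Field M] [Algebra F M]
    (φ : L →ₐ[F] M) : act p D φ (tT p D L) = tT p D M :=
  (hFUN p F D hD L M M φ (AlgHom.id F M)).2.2.1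

theorem fun_om [CharZero F] (hFUN : S_FUN) {D : F} (hD : D ≠ 0) {L M : Type} [Field L] [Algebra F L] [Field M] [Algebra F M]
    (φ : L →ₐ[F] M) (ζ : F) (h : ζ ^ p = 1) (P : Jp p D L) :
    act p D φ (om p D ζ h L P) = om p D ζ h M (act p D φ P) :=
  ((hFUN p F D hD L M M φ (AlgHom.id F M)).2.2.2 ζ h).2 P

/-- `λ = 1 - [ζ]` -/
noncomputable def lam (p : ℕ) [Fact p.Prime] [Fact (p ≠ 2)] (D ζ : F) (h : ζ ^ p = 1) (L : Type) [Field L] [Algebra F L] : Jp p D L →+ Jp p D L :=
  AddMonoidHom.id _ - om p D ζ h L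

theorem lam_apply (D ζ : F) (h : ζ ^ p = 1) (L : Type) [Field L] [Algebra F L] (P : Jp p D L) :
    lam p D ζ h L P = P - om p D ζ h L P := rfl

theorem act_lam [CharZero F] (hFUN : S_FUN) {D : F} (hD : D ≠ 0) {L M : Type} [Field L] [Algebra F L] [Field M] [Algebra F M]
    (φ : L →ₐ[F] M) (ζ : F) (h : ζ ^ p = 1) (P : Jp p D L) :
    act p D φ (lam p D ζ h L P) = lam p D ζ h M (act p D φ P) := by
  rw [lam_apply, lam_apply, map_sub, fun_om hFUN hD]

theorem act_om_iter [CharZero F] (hFUN : S_FUN) {D : F} (hD : D ≠ 0) {L M : Type} [Field L] [Algebra F L] [Field M] [Algebra F M]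
    (φ : L →ₐ[F] M) (ζ : F) (h : ζ ^ p = 1) (i : ℕ) (P : Jp p D L) :
    act p D φ ((om p D ζ h L)^[i] P) = (om p D ζ h M)^[i] (act p D φ P) := by
  induction i with
  | zero => rfl
  | succ i ih => rw [Function.iterate_succ_apply', Function.iterate_succ_apply', fun_om hFUN hD, ih]

/-- `λ f` -/
noncomputable def lc (p : ℕ) [Fact p.Prime] [Fact (p ≠ 2)] (D ζ : F) (h : ζ ^ p = 1) (f : Coch p D) : Coch p D :=
  fun σ => lam p D ζ h (AlgebraicClosure F) (f σ)

/-- the coboundary of `Q` -/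
noncomputable def dd (p : ℕ) [Fact p.Prime] [Fact (p ≠ 2)] (D : F) (Q : Jp p D (AlgebraicClosure F)) : Coch p D :=
  fun σ => act p D (σ : AlgebraicClosure F →ₐ[F] AlgebraicClosure F) Q - Q

theorem coc_lc [CharZero F] (hFUN : S_FUN) {D : F} (hD : D ≠ 0) (ζ : F) (h : ζ ^ p = 1) {f : Coch p D} (hf : IsCoc p D f) :
    IsCoc p D (lc p D ζ h f) := by
  refine ⟨hf.1.comp _, fun σ τ => ?_⟩
  change lam p D ζ h _ (f (σ * τ)) = lam p D ζ h _ (f σ) + act p D _ (lam p D ζ h _ (f τ))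
  rw [hf.2, map_add, act_lam hFUN hD]

theorem loc_lc [CharZero F] (hFUN : S_FUN) {D : F} (hD : D ≠ 0) (ζ : F) (h : ζ ^ p = 1) {K : Type} [Field K] [Algebra F K]
    {f : Coch p D} (hf : LocTriv p D K f) : LocTriv p D K (lc p D ζ h f) := by
  intro ι
  obtain ⟨P, hP⟩ := hf ι
  refine ⟨lam p D ζ h _ P, fun τ σ hτ => ?_⟩
  change act p D ι (lam p D ζ h _ (f σ)) = _
  rw [act_lam hFUN hD, hP τ σ hτ, map_sub, act_lam hFUN hD]

theorem dd_coc [CharZero F] (hDIC : S_DIC) (hFUN : S_FUN) {D : F} (hD : D ≠ 0) (Q : Jp p D (AlgebraicClosure F)) :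
    IsCoc p D (dd p D Q) := by
  refine ⟨(act_locConst hDIC hFUN D hD Q).comp (fun P => P - Q), fun σ τ => ?_⟩
  change act p D ((σ * τ : GalF F) : AlgebraicClosure F →ₐ[F] AlgebraicClosure F) Q - Q = (act p D _ Q - Q) + act p D _ (act p D _ Q - Q)
  have h1 : ((σ * τ : GalF F) : AlgebraicClosure F →ₐ[F] AlgebraicClosure F) =
      (σ : AlgebraicClosure F →ₐ[F] AlgebraicClosure F).comp (τ : AlgebraicClosure F →ₐ[F] AlgebraicClosure F) := rfl
  rw [h1, fun_comp hFUN hD, map_sub]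
  abel

theorem dd_loc [CharZero F] (hFUN : S_FUN) {D : F} (hD : D ≠ 0) (Q : Jp p D (AlgebraicClosure F)) {K : Type} [Field K]
    [Algebra F K] : LocTriv p D K (dd p D Q) := by
  intro ι
  refine ⟨act p D ι Q, fun τ σ hτ => ?_⟩
  change act p D ι (act p D _ Q - Q) = _
  have h1 : ι.comp (σ : AlgebraicClosure F →ₐ[F] AlgebraicClosure F) =
      ((τ : AlgebraicClosure K →ₐ[K] AlgebraicClosure K).restrictScalars F).comp ι := by
    ext x
    exact (hτ x).symm
  rw [map_sub, ← fun_comp hFUN hD, ← fun_comp hFUN hD, h1]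

end main

section step

variable {p : ℕ} [Fact p.Prime] [Fact (p ≠ 2)] {F : Type} [Field F] [NumberField F]

omit [Fact p.Prime] [Fact (p ≠ 2)] in
theorem modEq_of_nsmul {A : Type} [AddCommGroup A] {T : A} (hT : ∀ j : ℕ, j • T = 0 → p ∣ j) {a b : ℕ}
    (h : a • T = b • T) : a ≡ b [MOD p] := by
  rcases le_total a b with hab | hab
  · refine (Nat.modEq_iff_dvd' hab).2 (hT _ ?_)
    have h1 : (b - a) • T + a • T = 0 + a • T := by
      rw [← add_nsmul, Nat.sub_add_cancel hab, zero_add, h]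
    exact add_right_cancel h1
  · refine ((Nat.modEq_iff_dvd' hab).2 (hT _ ?_)).symm
    have h1 : (a - b) • T + b • T = 0 + b • T := by
      rw [← add_nsmul, Nat.sub_add_cancel hab, zero_add, h]
    exact add_right_cancel h1

/-- the descending induction -/
theorem step (hDIC : S_DIC) (hFUN : S_FUN) (hSTR : S_STR) (hKUM : S_KUM) (hLST : S_LST) (hGST : S_GST)
    (hJC : S_JCOND) {ζ : F} (hζ : IsPrimitiveRoot ζ p) {D : F} (hD : D ≠ 0)
    (hbad : ¬ Pool.Agent.Q7.LK.Bad p (AJ (F := F) p) D) {f : Coch p D} (hf : IsShaCoc p D f)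
    (hc : IsCob p D (lc p D ζ hζ.pow_eq_one f)) : IsCob p D f := by
  classical
  obtain ⟨P, hP⟩ := hc
  obtain ⟨-, s2, s3, s4, s5, -⟩ := hSTR p F ζ hζ.pow_eq_one hζ D hD (AlgebraicClosure F)
  obtain ⟨Q, hQ⟩ := s4 inferInstance P
  -- the difference
  set g : Coch p D := f + -dd p D Q with hg
  have hgv : ∀ σ, g σ = f σ - (act p D (σ : AlgebraicClosure F →ₐ[F] AlgebraicClosure F) Q - Q) := by
    intro σ
    change f σ + -(act p D (σ : AlgebraicClosure F →ₐ[F] AlgebraicClosure F) Q - Q) = _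
    rw [← sub_eq_add_neg]
  have hQ' : lam p D ζ hζ.pow_eq_one (AlgebraicClosure F) Q = P := hQ
  have hgl : ∀ σ, lam p D ζ hζ.pow_eq_one (AlgebraicClosure F) (g σ) = 0 := by
    intro σ
    rw [hgv, map_sub, map_sub, ← act_lam hFUN hD, hQ']
    have h1 : lam p D ζ hζ.pow_eq_one (AlgebraicClosure F) (f σ) = act p D (σ : AlgebraicClosure F →ₐ[F] AlgebraicClosure F) P - P := hP σ
    rw [h1, sub_self]
  have hgc : IsCoc p D g := by
    have h1 := dd_coc hDIC hFUN hD Q
    refine ⟨hf.1.1.add h1.1.neg, fun σ τ => ?_⟩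
    have e1 : g (σ * τ) = f (σ * τ) - dd p D Q (σ * τ) := hgv _
    have e2 : g σ = f σ - dd p D Q σ := hgv _
    have e3 : g τ = f τ - dd p D Q τ := hgv _
    rw [e1, e2, e3, hf.1.2, h1.2, map_sub]
    abel
  have hgT : ∀ σ, ∃ j : ℕ, g σ = j • tT p D (AlgebraicClosure F) := by
    intro σ
    refine s3 _ ?_
    have h1 := hgl σ
    rw [lam_apply, sub_eq_zero] at h1
    exact h1.symm
  set Hf : Jp p D (AlgebraicClosure F) → ℕ := fun R => if h : ∃ j : ℕ, R = j • tT p D (AlgebraicClosure F) then h.choose else 0 with hHf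
  set h : GalF F → ℕ := fun σ => Hf (g σ) with hh
  have hgh : ∀ σ, g σ = h σ • tT p D (AlgebraicClosure F) := by
    intro σ
    rw [hh, hHf]
    simp only
    rw [dif_pos (hgT σ)]
    exact (hgT σ).choose_spec
  have hhl : IsLocallyConstant h := hgc.1.comp Hf
  have hhm : ∀ σ τ : GalF F, h (σ * τ) ≡ h σ + h τ [MOD p] := by
    intro σ τ
    refine modEq_of_nsmul s5 ?_
    rw [← hgh, hgc.2, add_nsmul, ← hgh σ, hgh τ, map_nsmul, fun_T hFUN hD]
  obtain ⟨α, a, ha, hα, hτ⟩ := hKUM p F ζ hζ h hhl hhm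
  have hloc : ∀ v : HeightOneSpectrum (𝓞 F), AJ p v D a := by
    intro v
    have ι : AlgebraicClosure F →ₐ[F] AlgebraicClosure (v.adicCompletion F) := IsAlgClosed.lift
    obtain ⟨R, hR⟩ := hf.2.1 v ι
    obtain ⟨R', hR'⟩ := dd_loc hFUN hD Q (K := v.adicCompletion F) ι
    refine hLST p F ζ hζ D hD α a h ha hα hτ (v.adicCompletion F) ι (R - R') fun τ σ hτσ => ?_
    have h1 := hR τ σ hτσ
    have h2 := hR' τ σ hτσ
    have e2 : g σ = f σ - dd p D Q σ := hgv _
    rw [← fun_T hFUN hD ι, ← map_nsmul, ← hgh, e2, map_sub, map_sub, h1, h2]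
    abel
  obtain ⟨j, hj⟩ : ∃ j : ℕ, ∃ c : F, a * D ^ j = c ^ p := by
    by_contra hcon
    push Not at hcon
    refine hbad ⟨a, hJC p F ζ hζ D a hD hloc, fun j hj => ?_⟩
    obtain ⟨c, hc⟩ := hj
    exact hcon j c hc
  obtain ⟨R, hR⟩ := hGST p F ζ hζ D hD α a h ha hα hτ j hj
  refine ⟨R + Q, fun σ => ?_⟩
  have h1 := hR σ
  rw [← hgh, hgv, sub_eq_iff_eq_add] at h1
  rw [h1, map_add]
  abel

end step

theorem sha (hDIC : S_DIC) (hFUN : S_FUN) (hSTR : S_STR) (hKUM : S_KUM) (hLST : S_LST) (hGST : S_GST)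
    (hJC : S_JCOND) : S_SHA := by
  intro p _ _ F _ _ ζ hζ D hD hbad x hx
  obtain ⟨f, rfl⟩ := QuotientAddGroup.mk_surjective (s := (cob p D).addSubgroupOf (shaCoc p D)) x
  have h1 : (QuotientAddGroup.mk (p • f) : shaCoc p D ⧸ (cob p D).addSubgroupOf (shaCoc p D)) = 0 := hx
  rw [QuotientAddGroup.eq_zero_iff] at h1
  have h2 : IsCob p D (p • f).1 := h1
  obtain ⟨P, hP⟩ := h2
  have hf : IsShaCoc p D f.1 := f.2
  have hP' : ∀ σ : GalF F, p • f.1 σ = act p D (σ : AlgebraicClosure F →ₐ[F] AlgebraicClosure F) P - P := by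
    intro σ
    rw [← hP σ]
    rfl
  suffices h : IsCob p D f.1 by
    refine (QuotientAddGroup.eq_zero_iff f).2 ?_
    exact h
  -- the iterates
  have hz := hζ.pow_eq_one
  have hS : ∀ m : ℕ, IsShaCoc p D ((lc p D ζ hz)^[m] f.1) := by
    intro m
    induction m with
    | zero => exact hf
    | succ m ih =>
      rw [Function.iterate_succ_apply']
      exact ⟨coc_lc hFUN hD ζ hz ih.1, fun v => loc_lc hFUN hD ζ hz (ih.2.1 v), fun v => loc_lc hFUN hD ζ hz (ih.2.2 v)⟩
  have hit : ∀ (m : ℕ) (σ : GalF F), (lc p D ζ hz)^[m] f.1 σ = (fun Q : Jp p D (AlgebraicClosure F) => Q - om p D ζ hz _ Q)^[m] (f.1 σ) := by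
    intro m σ
    induction m with
    | zero => rfl
    | succ m ih =>
      rw [Function.iterate_succ_apply', Function.iterate_succ_apply', ← ih]
      rfl
  obtain ⟨-, -, -, -, -, n, hn⟩ := hSTR p F ζ hz hζ D hD (AlgebraicClosure F)
  have hfirst : IsCob p D ((lc p D ζ hz)^[p - 1] f.1) := by
    refine ⟨∑ i ∈ Finset.range p, n i • (om p D ζ hz (AlgebraicClosure F))^[i] P, fun σ => ?_⟩
    rw [hit, hn, Finset.smul_sum, map_sum, ← Finset.sum_sub_distrib]
    refine Finset.sum_congr rfl fun i _ => ?_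
    rw [smul_comm, ← iterate_map_nsmul, hP', iterate_map_sub, map_zsmul, act_om_iter hFUN hD, zsmul_sub]
  have hdesc : ∀ m : ℕ, IsCob p D ((lc p D ζ hz)^[m] f.1) → IsCob p D f.1 := by
    intro m
    induction m with
    | zero => exact id
    | succ m ih =>
      intro h
      rw [Function.iterate_succ_apply'] at h
      exact ih (step hDIC hFUN hSTR hKUM hLST hGST hJC hζ hD hbad (hS m) h)
  exact hdesc _ hfirst

end Pool.Agent.Q53.CJ.SHA
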